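import Mathlib
import Pool.Agent.X140.BM

/-!
# The Brownian span set is a.s. the closure of its interior
-/

namespace Pool.Agent.Results.MP_367e1f_pr.SpanSetRegular

open MeasureTheory ProbabilityTheory Set Filter
open scoped ENNReal NNReal Topology

/-- The span set on `[0,1]` of a path `b`: all `t - s` with `0 ≤ s ≤ t ≤ 1` and `b s = b t`. -/
def spanSet (b : ℝ≥0 → ℝ) : Set ℝ :=
  {u | ∃ s t : ℝ≥0, s ≤ t ∧ t ≤ 1 ∧ b s = b t ∧ u = (t : ℝ) - (s : ℝ)}

/-- Auxiliary real version. -/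
def S (c : ℝ → ℝ) : Set ℝ := {u | 0 ≤ u ∧ ∃ s, 0 ≤ s ∧ s + u ≤ 1 ∧ c s = c (s + u)}

theorem spanSet_eq (b : ℝ≥0 → ℝ) : spanSet b = S (fun x => b x.toNNReal) := by
  ext u
  constructor
  · rintro ⟨s, t, hst, ht, hb, rfl⟩
    have hst' : (s : ℝ) ≤ t := by exact_mod_cast hst
    refine ⟨by linarith, s, s.2, ?_, ?_⟩
    · have : (t : ℝ) ≤ 1 := by exact_mod_cast ht
      linarith
    · simp [hb]
  · rintro ⟨hu, s, hs, hsu, hc⟩
    refine ⟨s.toNNReal, (s + u).toNNReal, Real.toNNReal_mono (by linarith), ?_, hc, ?_⟩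
    · rw [← Real.toNNReal_one]
      exact Real.toNNReal_mono hsu
    · rw [Real.coe_toNNReal _ hs, Real.coe_toNNReal _ (by linarith)]
      ring

/-- A sign. -/
def sg (a : Bool) : ℝ := if a then 1 else -1

theorem sg_mul (a : Bool) : sg a * sg a = 1 := by
  cases a <;> simp [sg]

/-- Extrema over disjoint grid intervals differ. -/
def H1 (c : ℝ → ℝ) : Prop := ∀ (N k j : ℕ), k + 1 < j → j + 1 ≤ N → ∀ σ τ : Bool,
  ¬ ∃ x y : ℝ, x ∈ Icc ((k : ℝ) / N) ((k + 1 : ℝ) / N) ∧ y ∈ Icc ((j : ℝ) / N) ((j + 1 : ℝ) / N) ∧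
    (∀ z ∈ Icc ((k : ℝ) / N) ((k + 1 : ℝ) / N), sg σ * c z ≤ sg σ * c x) ∧
    (∀ z ∈ Icc ((j : ℝ) / N) ((j + 1 : ℝ) / N), sg τ * c z ≤ sg τ * c y) ∧ c x = c y

theorem locextr {c : ℝ → ℝ} (h1 : H1 c) {x y ε : ℝ} (hx : 0 ≤ x) (hxy : x < y) (hy : y ≤ 1)
    (hc : c x = c y) (hε : 0 < ε) (σ τ : Bool)
    (hmx : ∀ z, 0 ≤ z → z ≤ 1 → |z - x| < ε → sg σ * c z ≤ sg σ * c x)
    (hmy : ∀ z, 0 ≤ z → z ≤ 1 → |z - y| < ε → sg τ * c z ≤ sg τ * c y) : False := by
  obtain ⟨N, hN⟩ := exists_nat_gt (max (1 / ε) (2 / (y - x)))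
  have hd : 0 < y - x := by linarith
  have hN1 : 1 / ε < N := lt_of_le_of_lt (le_max_left _ _) hN
  have hN2 : 2 / (y - x) < N := lt_of_le_of_lt (le_max_right _ _) hN
  have hNpos : (0 : ℝ) < N := lt_trans (by positivity) hN1
  have hN1' : 1 / (N : ℝ) < ε := by
    rw [div_lt_iff₀ hNpos]
    rw [div_lt_iff₀ hε] at hN1
    linarith
  have hN2' : 2 < N * (y - x) := by
    rw [div_lt_iff₀ hd] at hN2
    exact hN2
  set k := ⌊x * N⌋₊ with hk
  set j := ⌈y * N⌉₊ - 1 with hj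
  have hk1 : (k : ℝ) ≤ x * N := Nat.floor_le (by positivity)
  have hk2 : x * N < k + 1 := Nat.lt_floor_add_one _
  have hypos : 0 < y * N := by nlinarith
  have hceil : 0 < ⌈y * N⌉₊ := Nat.ceil_pos.mpr hypos
  have hj' : j + 1 = ⌈y * N⌉₊ := by omega
  have hj1 : y * N ≤ j + 1 := by
    have := Nat.le_ceil (y * N)
    rw [← hj'] at this
    exact_mod_cast this
  have hj2 : (j : ℝ) + 1 < y * N + 1 := by
    have := Nat.ceil_lt_add_one hypos.le
    rw [← hj'] at this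
    exact_mod_cast this
  have hkj : k + 1 < j := by
    have : (k : ℝ) + 2 < j + 1 := by nlinarith
    have : k + 2 < j + 1 := by exact_mod_cast this
    omega
  have hjN : j + 1 ≤ N := by
    rw [hj']
    apply Nat.ceil_le.mpr
    nlinarith
  have hjN' : (j : ℝ) + 1 ≤ N := by exact_mod_cast hjN
  have hkN' : (k : ℝ) + 1 ≤ N := by
    have : k + 1 ≤ N := by omega
    exact_mod_cast this
  refine h1 N k j hkj hjN σ τ ⟨x, y, ⟨?_, ?_⟩, ⟨?_, ?_⟩, ?_, ?_, hc⟩
  · rw [div_le_iff₀ hNpos]; exact hk1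
  · rw [le_div_iff₀ hNpos]; exact hk2.le
  · rw [div_le_iff₀ hNpos]; linarith
  · rw [le_div_iff₀ hNpos]; exact hj1
  · intro z hz
    obtain ⟨hz1, hz2⟩ := hz
    rw [div_le_iff₀ hNpos] at hz1
    rw [le_div_iff₀ hNpos] at hz2
    have hk0 : (0 : ℝ) ≤ k := Nat.cast_nonneg k
    refine hmx z ?_ ?_ ?_
    · by_contra h; push Not at h; nlinarith
    · by_contra h; push Not at h; nlinarith
    · rw [abs_lt]
      rw [div_lt_iff₀ hNpos] at hN1'
      constructor
      · by_contra h; push Not at h; nlinarith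
      · by_contra h; push Not at h; nlinarith
  · intro z hz
    obtain ⟨hz1, hz2⟩ := hz
    rw [div_le_iff₀ hNpos] at hz1
    rw [le_div_iff₀ hNpos] at hz2
    have hk0 : (0 : ℝ) ≤ j := Nat.cast_nonneg j
    refine hmy z ?_ ?_ ?_
    · by_contra h; push Not at h; nlinarith
    · by_contra h; push Not at h; nlinarith
    · rw [abs_lt]
      rw [div_lt_iff₀ hNpos] at hN1'
      constructor
      · by_contra h; push Not at h; nlinarith
      · by_contra h; push Not at h; nlinarith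

theorem S_closed {c : ℝ → ℝ} (hc : Continuous c) : IsClosed (S c) := by
  have hK : IsClosed {z : ℝ × ℝ | 0 ≤ z.2 ∧ 0 ≤ z.1 ∧ z.1 + z.2 ≤ 1 ∧ c z.1 = c (z.1 + z.2)} := by
    refine IsClosed.inter (isClosed_le continuous_const continuous_snd) ?_
    refine IsClosed.inter (isClosed_le continuous_const continuous_fst) ?_
    refine IsClosed.inter (isClosed_le (f := fun z : ℝ × ℝ => z.1 + z.2) (by fun_prop)
      continuous_const) ?_
    exact isClosed_eq (f := fun z : ℝ × ℝ => c z.1) (g := fun z : ℝ × ℝ => c (z.1 + z.2))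
      (by fun_prop) (by fun_prop)
  have hKc : IsCompact {z : ℝ × ℝ | 0 ≤ z.2 ∧ 0 ≤ z.1 ∧ z.1 + z.2 ≤ 1 ∧
      c z.1 = c (z.1 + z.2)} := by
    refine (isCompact_Icc.prod isCompact_Icc :
      IsCompact ((Icc (0:ℝ) 1) ×ˢ (Icc (0:ℝ) 1))).of_isClosed_subset hK ?_
    rintro ⟨a, b⟩ ⟨h1, h2, h3, _⟩
    simp only at h1 h2 h3
    exact ⟨⟨h2, by linarith⟩, ⟨h1, by linarith⟩⟩
  have : S c = Prod.snd '' {z : ℝ × ℝ | 0 ≤ z.2 ∧ 0 ≤ z.1 ∧ z.1 + z.2 ≤ 1 ∧
      c z.1 = c (z.1 + z.2)} := by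
    ext u
    constructor
    · rintro ⟨hu, s, hs, hsu, h⟩
      exact ⟨(s, u), ⟨hu, hs, hsu, h⟩, rfl⟩
    · rintro ⟨⟨s, v⟩, ⟨hu, hs, hsu, h⟩, rfl⟩
      exact ⟨hu, s, hs, hsu, h⟩
  rw [this]
  exact (hKc.image continuous_snd).isClosed

/-- Lengths at which the difference changes sign strictly. -/
def O (c : ℝ → ℝ) : Set ℝ := {u | 0 < u ∧ (∃ s, 0 ≤ s ∧ s + u < 1 ∧ c s < c (s + u)) ∧
  ∃ s, 0 ≤ s ∧ s + u < 1 ∧ c (s + u) < c s}

theorem O_open {c : ℝ → ℝ} (hc : Continuous c) : IsOpen (O c) := by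
  have : O c = {u | 0 < u} ∩ ((⋃ s : {s : ℝ // 0 ≤ s}, {u | s.1 + u < 1} ∩ {u | c s < c (s + u)}) ∩
      (⋃ s : {s : ℝ // 0 ≤ s}, {u | s.1 + u < 1} ∩ {u | c (s + u) < c s})) := by
    ext u
    simp only [O, mem_inter_iff, mem_iUnion, mem_ofPred_eq, Subtype.exists, exists_prop]
  rw [this]
  refine (isOpen_lt continuous_const continuous_id).inter (IsOpen.inter ?_ ?_)
  · refine isOpen_iUnion fun s => ?_
    exact (isOpen_lt (by fun_prop) continuous_const).inter
      (isOpen_lt continuous_const (by fun_prop))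
  · refine isOpen_iUnion fun s => ?_
    exact (isOpen_lt (by fun_prop) continuous_const).inter
      (isOpen_lt (by fun_prop) continuous_const)

theorem O_subset {c : ℝ → ℝ} (hc : Continuous c) : O c ⊆ S c := by
  rintro u ⟨hu, ⟨s, hs, hsu, h1⟩, ⟨s', hs', hsu', h2⟩⟩
  have hf : Continuous fun x => c (x + u) - c x := by fun_prop
  have h : (0 : ℝ) ∈ (fun x => c (x + u) - c x) '' (uIcc s' s) := by
    apply intermediate_value_uIcc hf.continuousOn
    rw [mem_uIcc]
    left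
    constructor <;> linarith
  obtain ⟨x, hx, hx0⟩ := h
  have hx' : min s' s ≤ x ∧ x ≤ max s' s := hx
  refine ⟨hu.le, x, ?_, ?_, ?_⟩
  · exact le_trans (le_min hs' hs) hx'.1
  · rcases max_choice s' s with h | h
    · rw [h] at hx'; linarith [hx'.2]
    · rw [h] at hx'; linarith [hx'.2]
  · simp only at hx0; linarith

theorem O_subset_interior {c : ℝ → ℝ} (hc : Continuous c) : O c ⊆ interior (S c) :=
  interior_maximal (O_subset hc) (O_open hc)

/-- Move an inequality witness away from the right end. -/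
theorem push_left {c : ℝ → ℝ} (hc : Continuous c) {u : ℝ} (hu1 : u < 1)
    (h : ∃ s, 0 ≤ s ∧ s + u ≤ 1 ∧ c s < c (s + u)) :
    ∃ s, 0 ≤ s ∧ s + u < 1 ∧ c s < c (s + u) := by
  obtain ⟨s, hs, hsu, h⟩ := h
  rcases lt_or_eq_of_le hsu with h1 | h1
  · exact ⟨s, hs, h1, h⟩
  · have hspos : 0 < s := by linarith
    have hev : ∀ᶠ x in 𝓝 s, c x < c (x + u) := by
      have hopen : IsOpen {x | c x < c (x + u)} := isOpen_lt hc (by fun_prop)
      exact hopen.mem_nhds h
    rw [Metric.eventually_nhds_iff] at hev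
    obtain ⟨ε, hε, hev⟩ := hev
    refine ⟨s - min (ε / 2) (s / 2), ?_, ?_, ?_⟩
    · have := min_le_right (ε / 2) (s / 2)
      linarith
    · have : 0 < min (ε / 2) (s / 2) := by positivity
      linarith
    · apply hev
      rw [Real.dist_eq]
      have h2 : 0 < min (ε / 2) (s / 2) := by positivity
      have h3 := min_le_left (ε / 2) (s / 2)
      rw [abs_lt]
      constructor <;> linarith

theorem H1.neg {c : ℝ → ℝ} (h : H1 c) : H1 (fun x => - c x) := by
  intro N k j hkj hjN σ τ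
  rintro ⟨x, y, hx, hy, hmx, hmy, hxy⟩
  have hs : ∀ a : Bool, sg (!a) = - sg a := by
    intro a; cases a <;> simp [sg]
  refine h N k j hkj hjN (!σ) (!τ) ⟨x, y, hx, hy, ?_, ?_, by linarith⟩
  · intro z hz
    have := hmx z hz
    rw [hs]
    linarith
  · intro z hz
    have := hmy z hz
    rw [hs]
    linarith

/-- The key step: if the increment is positive somewhere at length `u₀` then `u₀` is a limit of
points of `O`. -/
theorem key {c : ℝ → ℝ} (hc : Continuous c) (h1 : H1 c) {u₀ : ℝ} (hu0 : 0 < u₀) (hu1 : u₀ < 1)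
    (hS : u₀ ∈ S c) (hpos : ∃ s, 0 ≤ s ∧ s + u₀ < 1 ∧ c s < c (s + u₀)) :
    u₀ ∈ closure (O c) := by
  by_contra hcl
  rw [Metric.mem_closure_iff] at hcl
  push Not at hcl
  obtain ⟨ε, hε, hcl⟩ := hcl
  obtain ⟨s₁, hs₁, hsu₁, hpos⟩ := hpos
  obtain ⟨-, s₀, hs₀, hsu₀, heq⟩ := hS
  -- positivity persists
  have hev : ∀ᶠ u in 𝓝 u₀, 0 < u ∧ s₁ + u < 1 ∧ c s₁ < c (s₁ + u) := by
    have hopen : IsOpen {u | 0 < u ∧ s₁ + u < 1 ∧ c s₁ < c (s₁ + u)} :=
      (isOpen_lt continuous_const continuous_id).inter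
        ((isOpen_lt (f := fun u : ℝ => s₁ + u) (by fun_prop) continuous_const).inter
          (isOpen_lt (g := fun u : ℝ => c (s₁ + u)) continuous_const (by fun_prop)))
    exact hopen.mem_nhds ⟨hu0, hsu₁, hpos⟩
  rw [Metric.eventually_nhds_iff] at hev
  obtain ⟨δ, hδ, hev⟩ := hev
  set η := min ε δ with hη
  have hηpos : 0 < η := lt_min hε hδ
  -- no negative increment near u₀
  have hno : ∀ u, |u - u₀| < η → ∀ s, 0 ≤ s → s + u ≤ 1 → c s ≤ c (s + u) := by
    intro u hu s hs hsu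
    by_contra hneg
    push Not at hneg
    have hud : dist u u₀ < δ := by
      rw [Real.dist_eq]; exact lt_of_lt_of_le hu (min_le_right _ _)
    have hue : dist u₀ u < ε := by
      rw [dist_comm, Real.dist_eq]; exact lt_of_lt_of_le hu (min_le_left _ _)
    obtain ⟨hu0', hsu1, hp⟩ := hev hud
    have hu1' : u < 1 := by linarith
    have hneg' : ∃ s, 0 ≤ s ∧ s + u < 1 ∧ -c s < -c (s + u) :=
      push_left (c := fun x => - c x) (by fun_prop) hu1' ⟨s, hs, hsu, by linarith⟩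
    obtain ⟨s', hs', hsu', hn'⟩ := hneg'
    have hO : u ∈ O c := ⟨hu0', ⟨s₁, hs₁, hsu1, hp⟩, ⟨s', hs', hsu', by linarith⟩⟩
    exact absurd hue (not_lt.mpr (hcl u hO))
  refine locextr h1 (x := s₀) (y := s₀ + u₀) (ε := η) hs₀ (by linarith) hsu₀ heq hηpos
    true false ?_ ?_
  · intro z hz0 hz1 hz
    simp only [sg, if_true, one_mul]
    have h := hno (s₀ + u₀ - z) (by
      rw [show s₀ + u₀ - z - u₀ = -(z - s₀) by ring, abs_neg]; exact hz) z hz0 (by linarith)
    rw [show z + (s₀ + u₀ - z) = s₀ + u₀ by ring] at h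
    rw [heq]
    exact h
  · intro z hz0 hz1 hz
    simp only [sg, Bool.false_eq_true, if_false]
    have h := hno (z - s₀) (by
      rw [show z - s₀ - u₀ = z - (s₀ + u₀) by ring]; exact hz) s₀ hs₀ (by linarith)
    rw [show s₀ + (z - s₀) = z by ring] at h
    linarith

theorem O_neg (c : ℝ → ℝ) : O (fun x => - c x) = O c := by
  ext u
  simp only [O, mem_ofPred_eq, neg_lt_neg_iff]
  tauto

theorem S_neg (c : ℝ → ℝ) : S (fun x => - c x) = S c := by
  ext u
  simp only [S, mem_ofPred_eq, neg_inj]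

theorem det {c : ℝ → ℝ} (hc : Continuous c) (h1 : H1 c)
    (h2 : ∀ n : ℕ, ∃ x y : ℝ, 0 ≤ x ∧ x < y ∧ y ≤ 1 / ((n : ℝ) + 1) ∧ c x = c y)
    (h3 : c 0 ≠ c 1) : S c = closure (interior (S c)) := by
  apply Subset.antisymm
  swap
  · exact closure_minimal interior_subset (S_closed hc)
  -- local extremum in any right neighbourhood of `0`
  have hext : ∀ L : ℝ, 0 < L → ∃ m, 0 < m ∧ m < L ∧ ∃ σ : Bool, ∃ ε > 0,
      ∀ z, |z - m| < ε → sg σ * c z ≤ sg σ * c m := by
    intro L hL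
    obtain ⟨n, hn⟩ := exists_nat_one_div_lt hL
    obtain ⟨x, y, hx, hxy, hy, hcxy⟩ := h2 n
    obtain ⟨m, ⟨hm1, hm2⟩, hm⟩ := exists_isLocalExtr_Ioo hxy hc.continuousOn hcxy
    refine ⟨m, by linarith, by linarith, ?_⟩
    rcases hm with h | h
    · have h' : ∀ᶠ z in 𝓝 m, c m ≤ c z := h
      rw [Metric.eventually_nhds_iff] at h'
      obtain ⟨ε, hε, h'⟩ := h'
      refine ⟨false, ε, hε, fun z hz => ?_⟩
      have := h' (y := z) (by rw [Real.dist_eq]; exact hz)
      simp only [sg, Bool.false_eq_true, if_false]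
      linarith
    · have h' : ∀ᶠ z in 𝓝 m, c z ≤ c m := h
      rw [Metric.eventually_nhds_iff] at h'
      obtain ⟨ε, hε, h'⟩ := h'
      refine ⟨true, ε, hε, fun z hz => ?_⟩
      have := h' (y := z) (by rw [Real.dist_eq]; exact hz)
      simp only [sg, if_true, one_mul]
      exact this
  intro u₀ hu
  have hu' := hu
  obtain ⟨hu0, s₀, hs₀, hsu₀, heq⟩ := hu'
  rcases eq_or_lt_of_le hu0 with h0 | h0
  · -- `u₀ = 0`
    subst h0
    obtain ⟨m, hm0, hm1, σ, ε, hε, hm⟩ := hext 1 one_pos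
    -- all small lengths belong to `S`
    set δ := min ε (min m (1 - m)) with hδ
    have hδpos : 0 < δ := by
      have : 0 < 1 - m := by linarith
      positivity
    have hsub : Ioo 0 δ ⊆ S c := by
      rintro u ⟨hu1, hu2⟩
      have e1 : δ ≤ ε := min_le_left _ _
      have e2 : δ ≤ m := (min_le_right _ _).trans (min_le_left _ _)
      have e3 : δ ≤ 1 - m := (min_le_right _ _).trans (min_le_right _ _)
      have hA := hm (m - u) (by rw [show m - u - m = -u by ring, abs_neg, abs_of_pos hu1]; linarith)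
      have hB := hm (m + u) (by rw [show m + u - m = u by ring, abs_of_pos hu1]; linarith)
      have hf : Continuous fun x => sg σ * (c (x + u) - c x) := by fun_prop
      have h : (0 : ℝ) ∈ (fun x => sg σ * (c (x + u) - c x)) '' (Icc (m - u) m) := by
        apply intermediate_value_Icc' (by linarith) hf.continuousOn
        constructor
        · show sg σ * (c (m + u) - c m) ≤ 0
          linarith
        · show 0 ≤ sg σ * (c (m - u + u) - c (m - u))
          rw [show m - u + u = m by ring]; linarith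
      obtain ⟨x, ⟨hx1, hx2⟩, hx⟩ := h
      refine ⟨hu1.le, x, by linarith, by linarith, ?_⟩
      have hne : sg σ ≠ 0 := by
        intro h0
        have := sg_mul σ
        rw [h0] at this
        simp at this
      have := (mul_eq_zero.mp hx).resolve_left hne
      linarith
    have hint : Ioo 0 δ ⊆ interior (S c) := interior_maximal hsub isOpen_Ioo
    apply closure_mono hint
    rw [closure_Ioo hδpos.ne]
    exact ⟨le_rfl, hδpos.le⟩
  have hu1 : u₀ < 1 := by
    rcases lt_or_eq_of_le (show u₀ ≤ 1 by linarith) with h | h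
    · exact h
    · exfalso
      apply h3
      have : s₀ = 0 := by linarith
      rw [this, zero_add, h] at heq
      exact heq
  have hgoal : u₀ ∈ closure (O c) → u₀ ∈ closure (interior (S c)) :=
    fun h => closure_mono (O_subset_interior hc) h
  by_cases hp : ∃ s, 0 ≤ s ∧ s + u₀ ≤ 1 ∧ c s < c (s + u₀)
  · exact hgoal (key hc h1 h0 hu1 hu (push_left hc hu1 hp))
  by_cases hn : ∃ s, 0 ≤ s ∧ s + u₀ ≤ 1 ∧ c (s + u₀) < c s
  · have hc' : Continuous fun x => - c x := by fun_prop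
    have hpush := push_left (c := fun x => - c x) hc' hu1 (by
      obtain ⟨s, a, b, d⟩ := hn
      exact ⟨s, a, b, by linarith⟩)
    have := key hc' h1.neg h0 hu1 (by rw [S_neg]; exact hu) hpush
    rw [O_neg] at this
    exact hgoal this
  · -- periodic case
    exfalso
    push Not at hp hn
    have hper : ∀ s, 0 ≤ s → s + u₀ ≤ 1 → c s = c (s + u₀) := fun s a b =>
      le_antisymm (hn s a b) (hp s a b)
    obtain ⟨m, hm0, hm1, σ, ε, hε, hm⟩ := hext (1 - u₀) (by linarith)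
    set η := min ε (min m (1 - u₀ - m)) with hη
    have hηpos : 0 < η := by
      have : 0 < 1 - u₀ - m := by linarith
      positivity
    have e1 : η ≤ ε := min_le_left _ _
    have e2 : η ≤ m := (min_le_right _ _).trans (min_le_left _ _)
    have e3 : η ≤ 1 - u₀ - m := (min_le_right _ _).trans (min_le_right _ _)
    refine locextr h1 (x := m) (y := m + u₀) (ε := η) hm0.le (by linarith) (by linarith)
      (hper m hm0.le (by linarith)) hηpos σ σ ?_ ?_
    · intro z _ _ hz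
      exact hm z (lt_of_lt_of_le hz e1)
    · intro z _ _ hz
      have hz' := hz
      rw [abs_lt] at hz'
      have hA := hm (z - u₀) (by
        rw [show z - u₀ - m = z - (m + u₀) by ring]; exact lt_of_lt_of_le hz e1)
      have hB := hper (z - u₀) (by linarith [hz'.1]) (by linarith [hz'.2])
      rw [show z - u₀ + u₀ = z by ring] at hB
      rw [← hB, ← hper m hm0.le (by linarith)]
      exact hA

/-- **Almost surely the Brownian span set on `[0,1]` is the closure of its interior.** -/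
theorem result {Ω : Type*} [MeasurableSpace Ω] (P : Measure Ω) (B : ℝ≥0 → Ω → ℝ)
    (hB : IsBrownianReal B P) :
    ∀ᵐ ω ∂P, spanSet (fun t => B t ω) = closure (interior (spanSet (fun t => B t ω))) := by
  have : IsProbabilityMeasure P := hB.isGaussianProcess.isProbabilityMeasure
  have hH1 : ∀ᵐ ω ∂P, ∀ (N k j : ℕ), k + 1 < j → j + 1 ≤ N → ∀ σ τ : Bool,
      ¬ ∃ x y : ℝ≥0, (k : ℝ≥0) / N ≤ x ∧ x ≤ (k + 1 : ℝ≥0) / N ∧ (j : ℝ≥0) / N ≤ y ∧
        y ≤ (j + 1 : ℝ≥0) / N ∧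
        (∀ z, (k : ℝ≥0) / N ≤ z → z ≤ (k + 1 : ℝ≥0) / N → sg σ * B z ω ≤ sg σ * B x ω) ∧
        (∀ z, (j : ℝ≥0) / N ≤ z → z ≤ (j + 1 : ℝ≥0) / N → sg τ * B z ω ≤ sg τ * B y ω) ∧
        B x ω = B y ω := by
    rw [ae_all_iff]; intro N
    rw [ae_all_iff]; intro k
    rw [ae_all_iff]; intro j
    by_cases hkj : k + 1 < j
    swap
    · exact Eventually.of_forall fun ω h => absurd h hkj
    by_cases hjN : j + 1 ≤ N
    swap
    · exact Eventually.of_forall fun ω _ h => absurd h hjN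
    have hNpos : (0 : ℝ≥0) < N := by
      have : 0 < N := by omega
      exact_mod_cast this
    have hall : ∀ᵐ ω ∂P, ∀ σ τ : Bool,
        ¬ ∃ x y : ℝ≥0, (k : ℝ≥0) / N ≤ x ∧ x ≤ (k + 1 : ℝ≥0) / N ∧ (j : ℝ≥0) / N ≤ y ∧
        y ≤ (j + 1 : ℝ≥0) / N ∧
        (∀ z, (k : ℝ≥0) / N ≤ z → z ≤ (k + 1 : ℝ≥0) / N → sg σ * B z ω ≤ sg σ * B x ω) ∧
        (∀ z, (j : ℝ≥0) / N ≤ z → z ≤ (j + 1 : ℝ≥0) / N → sg τ * B z ω ≤ sg τ * B y ω) ∧
        B x ω = B y ω := by
      rw [ae_all_iff]; intro σ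
      rw [ae_all_iff]; intro τ
      refine Pool.Agent.X140.ext_ne hB ?_ ?_ ?_ (sg_mul σ) (sg_mul τ)
      · gcongr; exact le_self_add
      · have : ((k + 1 : ℕ) : ℝ≥0) < (j : ℝ≥0) := by exact_mod_cast hkj
        push_cast at this
        gcongr
      · gcongr; exact le_self_add
    filter_upwards [hall] with ω hω _ _
    exact hω
  have hH2 : ∀ᵐ ω ∂P, ∀ n : ℕ, ∃ x y : ℝ≥0, x < y ∧ y ≤ 1 / ((n : ℝ≥0) + 1) ∧
      B x ω = B y ω := by
    rw [ae_all_iff]; intro n
    exact Pool.Agent.X140.not_injOn hB (by positivity)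
  have hH3 : ∀ᵐ ω ∂P, B 0 ω ≠ B 1 ω := by
    have hl := hB.hasLaw_sub 1 0
    have h := Pool.Agent.X140.gaussian_null_of_hasLaw (by
      intro h0
      have h1 := congrArg (fun x : ℝ≥0 => (x : ℝ)) h0
      simp at h1) hl 0
    rw [ae_iff]
    refine measure_mono_null (fun ω hω => ?_) h
    simp only [mem_ofPred_eq, not_not, Pi.sub_apply] at hω ⊢
    rw [hω]; ring
  filter_upwards [hB.cont, hH1, hH2, hH3] with ω hc h1 h2 h3
  rw [spanSet_eq]
  refine det ?_ ?_ ?_ ?_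
  · exact hc.comp continuous_real_toNNReal
  · intro N k j hkj hjN σ τ
    rintro ⟨x, y, ⟨hx1, hx2⟩, ⟨hy1, hy2⟩, hmx, hmy, hxy⟩
    have hx0 : 0 ≤ x := le_trans (by positivity) hx1
    have hy0 : 0 ≤ y := le_trans (by positivity) hy1
    have hkc : ((((k : ℝ≥0) / N : ℝ≥0)) : ℝ) = (k : ℝ) / N := by push_cast; rfl
    have hkc1 : ((((k + 1 : ℝ≥0) / N : ℝ≥0)) : ℝ) = (k + 1 : ℝ) / N := by push_cast; rfl
    have hjc : ((((j : ℝ≥0) / N : ℝ≥0)) : ℝ) = (j : ℝ) / N := by push_cast; rfl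
    have hjc1 : ((((j + 1 : ℝ≥0) / N : ℝ≥0)) : ℝ) = (j + 1 : ℝ) / N := by push_cast; rfl
    refine h1 N k j hkj hjN σ τ ⟨x.toNNReal, y.toNNReal, ?_, ?_, ?_, ?_, ?_, ?_, hxy⟩
    · rw [← NNReal.coe_le_coe, hkc, Real.coe_toNNReal x hx0]; exact hx1
    · rw [← NNReal.coe_le_coe, hkc1, Real.coe_toNNReal x hx0]; exact hx2
    · rw [← NNReal.coe_le_coe, hjc, Real.coe_toNNReal y hy0]; exact hy1
    · rw [← NNReal.coe_le_coe, hjc1, Real.coe_toNNReal y hy0]; exact hy2
    · intro z hz1 hz2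
      have := hmx z ⟨by rw [← hkc]; exact_mod_cast hz1, by rw [← hkc1]; exact_mod_cast hz2⟩
      simpa using this
    · intro z hz1 hz2
      have := hmy z ⟨by rw [← hjc]; exact_mod_cast hz1, by rw [← hjc1]; exact_mod_cast hz2⟩
      simpa using this
  · intro n
    obtain ⟨x, y, hxy, hy, hB'⟩ := h2 n
    refine ⟨x, y, x.2, by exact_mod_cast hxy, ?_, by simpa using hB'⟩
    have : ((1 / ((n : ℝ≥0) + 1) : ℝ≥0) : ℝ) = 1 / ((n : ℝ) + 1) := by push_cast; rfl
    rw [← this]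
    exact_mod_cast hy
  · simpa using h3

end Pool.Agent.Results.MP_367e1f_pr.SpanSetRegular
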